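import Pool.Agent.N418.CZ.Stm

/-!
# Project CZ, part DD: the function `D`
-/

set_option autoImplicit false

namespace Pool.Agent.N386.CZ

open Pool.Agent.N418.CZ

/-! ## Operations on matrix polynomials -/

theorem polM_map {k : ℕ} {α β : Type} (g : α → β) {s : Multiset α} {f : (α → Mk k) → Mk k}
    (hf : f ∈ PolM k α s) :
    (fun x : β → Mk k => f (fun a => x (g a))) ∈ PolM k β (s.map g) := by
  let Φ : ((α → Mk k) → Mk k) →ₗ[ℝ] ((β → Mk k) → Mk k) :=
    LinearMap.funLeft ℝ (Mk k) (fun (x : β → Mk k) (a : α) => x (g a))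
  have h : PolM k α s ≤ (PolM k β (s.map g)).comap Φ := by
    refine Submodule.span_le.mpr ?_
    rintro _ ⟨l, hl, rfl⟩
    show Φ _ ∈ PolM k β (s.map g)
    refine Submodule.subset_span ⟨l.map g, ?_, ?_⟩
    · rw [← Multiset.map_coe, hl]
    · funext x
      show (l.map (fun a => x (g a))).prod = ((l.map g).map x).prod
      rw [List.map_map]
      rfl
  exact h hf

theorem polM_mul {k : ℕ} {α : Type} (r : List α) {s : Multiset α} {f : (α → Mk k) → Mk k}
    (hf : f ∈ PolM k α s) :
    (fun x : α → Mk k => f x * (r.map x).prod) ∈ PolM k α (s + (r : Multiset α)) := by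
  let Φ : ((α → Mk k) → Mk k) →ₗ[ℝ] ((α → Mk k) → Mk k) :=
    { toFun := fun f x => f x * (r.map x).prod
      map_add' := fun a b => by funext x; simp [add_mul]
      map_smul' := fun c a => by funext x; simp }
  have h : PolM k α s ≤ (PolM k α (s + (r : Multiset α))).comap Φ := by
    refine Submodule.span_le.mpr ?_
    rintro _ ⟨l, hl, rfl⟩
    show Φ _ ∈ PolM k α (s + (r : Multiset α))
    refine Submodule.subset_span ⟨l ++ r, ?_, ?_⟩
    · rw [← Multiset.coe_add, hl]
    · funext x
      show (l.map x).prod * (r.map x).prod = ((l ++ r).map x).prod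
      rw [List.map_append, List.prod_append]
  exact h hf

/-! ## Words without the letter `none` -/

theorem some_list {ι : Type} : ∀ l : List (Option ι), none ∉ l → ∃ l' : List ι, l = l'.map some
  | [], _ => ⟨[], rfl⟩
  | none :: l, h => absurd (List.mem_cons_self) h
  | some a :: l, h => by
    obtain ⟨l', hl'⟩ := some_list l (fun h' => h (List.mem_cons_of_mem _ h'))
    exact ⟨a :: l', by rw [hl']; rfl⟩

theorem some_lists {ι : Type} : ∀ L : List (List (Option ι)), (∀ l ∈ L, none ∉ l) →
    ∃ L' : List (List ι), L = L'.map (List.map some)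
  | [], _ => ⟨[], rfl⟩
  | l :: L, h => by
    obtain ⟨L', hL'⟩ := some_lists L (fun l' hl' => h l' (List.mem_cons_of_mem _ hl'))
    obtain ⟨l', hl'⟩ := some_list l (h l List.mem_cons_self)
    exact ⟨l' :: L', by rw [hL', hl']; rfl⟩

/-! ## Multiplication by several traces -/

theorem mul_traces (hTRC : S_TRC) {k m : ℕ} (hk : 1 ≤ k) {ι : Type} [DecidableEq ι]
    (X : Fin (k * k) → Fin m) (hX : Function.Injective X)
    (f : (Fin m → Mk k) → Mk k) (hf : f ∈ Pol k (Fin m)) (hA : AltIn X f) :
    ∀ M : List (List ι),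
      (fun x : Fin m ⊕ ι → Mk k =>
        ((M.map (fun l => ((l.map (fun a => x (Sum.inr a))).prod).trace)).prod) •
          f (fun s => x (Sum.inl s))) ∈ PolM k (Fin m ⊕ ι)
        (((M.flatten.map Sum.inr : List (Fin m ⊕ ι)) : Multiset (Fin m ⊕ ι)) +
          (Finset.univ : Finset (Fin m)).val.map Sum.inl)
  | [] => by
    have h := polM_map (Sum.inl : Fin m → Fin m ⊕ ι) hf
    simpa using h
  | l :: M => by
    have ih := mul_traces hTRC hk X hX f hf hA M
    have hX' : Function.Injective (fun i => (Sum.inl (X i) : Fin m ⊕ ι)) :=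
      fun i j hij => hX (Sum.inl_injective hij)
    have hcount : ∀ i, Multiset.count ((fun i => (Sum.inl (X i) : Fin m ⊕ ι)) i)
        (((M.flatten.map Sum.inr : List (Fin m ⊕ ι)) : Multiset (Fin m ⊕ ι)) +
          (Finset.univ : Finset (Fin m)).val.map Sum.inl) = 1 := by
      intro i
      rw [Multiset.count_add]
      have h1 : Multiset.count ((fun i => (Sum.inl (X i) : Fin m ⊕ ι)) i)
          ((M.flatten.map Sum.inr : List (Fin m ⊕ ι)) : Multiset (Fin m ⊕ ι)) = 0 := by
        rw [Multiset.count_eq_zero, Multiset.mem_coe, List.mem_map]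
        rintro ⟨a, _, ha⟩
        exact absurd ha (by simp)
      have h2 : Multiset.count ((fun i => (Sum.inl (X i) : Fin m ⊕ ι)) i)
          ((Finset.univ : Finset (Fin m)).val.map Sum.inl) = 1 := by
        show Multiset.count (Sum.inl (X i) : Fin m ⊕ ι)
          ((Finset.univ : Finset (Fin m)).val.map Sum.inl) = 1
        rw [Multiset.count_map_eq_count' _ _ Sum.inl_injective]
        exact Multiset.count_eq_one_of_mem Finset.univ.nodup (Finset.mem_univ (X i))
      rw [h1, h2]
    have hAlt : AltIn (fun i => (Sum.inl (X i) : Fin m ⊕ ι))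
        (fun x : Fin m ⊕ ι → Mk k =>
        ((M.map (fun l => ((l.map (fun a => x (Sum.inr a))).prod).trace)).prod) •
          f (fun s => x (Sum.inl s))) := by
      intro x i j hij hx
      show _ • f (fun s => x (Sum.inl s)) = 0
      rw [hA (fun s => x (Sum.inl s)) i j hij hx, smul_zero]
    have h := hTRC k (Fin m ⊕ ι) (fun i => (Sum.inl (X i) : Fin m ⊕ ι)) hk hX' _ hcount _ ih hAlt
      (l.map Sum.inr)
    have e1 : ((((l :: M).flatten.map Sum.inr : List (Fin m ⊕ ι)) : Multiset (Fin m ⊕ ι)) +
          (Finset.univ : Finset (Fin m)).val.map Sum.inl) =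
        ((l.map Sum.inr : List (Fin m ⊕ ι)) : Multiset (Fin m ⊕ ι)) +
        (((M.flatten.map Sum.inr : List (Fin m ⊕ ι)) : Multiset (Fin m ⊕ ι)) +
          (Finset.univ : Finset (Fin m)).val.map Sum.inl) := by
      rw [List.flatten_cons, List.map_append, ← Multiset.coe_add, add_assoc]
    rw [e1]
    convert h using 1
    funext x
    rw [List.map_cons, List.prod_cons, mul_smul, List.map_map]
    rfl

/-! ## The statement for one trace monomial -/

theorem one_monomial (hTRC : S_TRC) (hWP : S_WP) {k m : ℕ} (hk : 1 ≤ k)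
    {ι : Type} [Fintype ι] [DecidableEq ι]
    (X : Fin (k * k) → Fin m) (hX : Function.Injective X)
    (f : (Fin m → Mk k) → Mk k) (hf : f ∈ Pol k (Fin m)) (hA : AltIn X f)
    (D : (Fin m → Mk k) → ℝ) (hD : ∀ x, f x = D x • (1 : Mk k)) (σ : Equiv.Perm (Option ι)) :
    ∃ F ∈ Pol k (Fin m ⊕ ι), ∀ (x : Fin m ⊕ ι → Mk k) (z : Mk k), (F x * z).trace =
      D (fun s => x (Sum.inl s)) * tr σ (fun o => o.elim z (fun a => x (Sum.inr a))) := by
  obtain ⟨L, hL, hLtr⟩ := hWP k (Option ι) σ
  have hnone : none ∈ L.flatten := by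
    rw [← Multiset.mem_coe, hL]
    exact Finset.mem_univ _
  obtain ⟨l0, hl0, hn0⟩ := List.mem_flatten.mp hnone
  obtain ⟨L1, L2, rfl⟩ := List.append_of_mem hl0
  obtain ⟨p, q, rfl⟩ := List.append_of_mem hn0
  have hflat : ∀ (L1 L2 : List (List (Option ι))) (p q : List (Option ι)),
      (((L1 ++ (p ++ none :: q) :: L2).flatten : List (Option ι)) : Multiset (Option ι)) =
        (L1.flatten : Multiset (Option ι)) + ((p : Multiset (Option ι)) +
          none ::ₘ (q : Multiset (Option ι)) + (L2.flatten : Multiset (Option ι))) := by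
    intro L1 L2 p q
    rw [List.flatten_append, List.flatten_cons, ← Multiset.coe_add, ← Multiset.coe_add,
      ← Multiset.coe_add, Multiset.cons_coe]
  have hcnt : Multiset.count none (((L1 ++ (p ++ none :: q) :: L2).flatten : List (Option ι)) :
      Multiset (Option ι)) = 1 := by
    rw [hL]
    exact Multiset.count_eq_one_of_mem Finset.univ.nodup (Finset.mem_univ (none : Option ι))
  rw [hflat, Multiset.count_add, Multiset.count_add, Multiset.count_add,
    Multiset.count_cons_self] at hcnt
  have h1 : none ∉ L1.flatten := by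
    rw [← Multiset.mem_coe, ← Multiset.count_eq_zero]; omega
  have h2 : none ∉ L2.flatten := by
    rw [← Multiset.mem_coe, ← Multiset.count_eq_zero]; omega
  have hp : none ∉ p := by
    rw [← Multiset.mem_coe, ← Multiset.count_eq_zero]; omega
  have hq : none ∉ q := by
    rw [← Multiset.mem_coe, ← Multiset.count_eq_zero]; omega
  obtain ⟨M1, rfl⟩ := some_lists L1 (fun l hl h => h1 (List.mem_flatten.mpr ⟨l, hl, h⟩))
  obtain ⟨M2, rfl⟩ := some_lists L2 (fun l hl h => h2 (List.mem_flatten.mpr ⟨l, hl, h⟩))
  obtain ⟨p', rfl⟩ := some_list p hp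
  obtain ⟨q', rfl⟩ := some_list q hq
  -- the multiset of the letters
  have hmul : (((M1 ++ M2).flatten ++ (q' ++ p') : List ι) : Multiset ι) =
      (Finset.univ : Finset ι).val := by
    ext a
    have h3 : Multiset.count (some a) ((((M1.map (List.map some)) ++
        (p'.map some ++ none :: q'.map some) :: (M2.map (List.map some))).flatten :
        List (Option ι)) : Multiset (Option ι)) = 1 := by
      rw [hL]
      exact Multiset.count_eq_one_of_mem Finset.univ.nodup (Finset.mem_univ (some a))
    rw [Multiset.count_eq_one_of_mem Finset.univ.nodup (Finset.mem_univ a)]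
    have e3 : ∀ l : List ι, Multiset.count (some a) ((l.map some : List (Option ι)) :
        Multiset (Option ι)) = Multiset.count a (l : Multiset ι) := fun l => by
      rw [← Multiset.map_coe]
      exact Multiset.count_map_eq_count' some _ (Option.some_injective _) a
    rw [hflat, Multiset.count_add, Multiset.count_add, Multiset.count_add,
      Multiset.count_cons_of_ne (by simp), ← List.map_flatten, ← List.map_flatten,
      e3, e3, e3, e3] at h3
    rw [List.flatten_append, ← Multiset.coe_add, ← Multiset.coe_add, ← Multiset.coe_add,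
      Multiset.count_add, Multiset.count_add, Multiset.count_add]
    omega
  have hmem := mul_traces hTRC hk X hX f hf hA (M1 ++ M2)
  have hmem2 := polM_mul ((q' ++ p').map (Sum.inr : ι → Fin m ⊕ ι)) hmem
  refine ⟨fun x : Fin m ⊕ ι → Mk k =>
        (((M1 ++ M2).map (fun l => ((l.map (fun a => x (Sum.inr a))).prod).trace)).prod) •
          f (fun s => x (Sum.inl s)) * (((q' ++ p').map Sum.inr).map x).prod, ?_, fun x z => ?_⟩
  rotate_left
  · rw [hLtr]
    simp only [hD, List.map_append, List.map_cons, List.prod_append, List.prod_cons, List.map_map,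
      Option.elim_none]
    have e4 : ∀ (M : List (List ι)),
        (M.map ((fun l : List (Option ι) => (l.map (fun o : Option ι =>
          o.elim z (fun a => x (Sum.inr a)))).prod.trace) ∘ List.map some)).prod =
        (M.map (fun l => ((l.map (fun a => x (Sum.inr a))).prod).trace)).prod := by
      intro M
      congr 1
      refine List.map_congr_left (fun l _ => ?_)
      simp [List.map_map, Function.comp_def]
    rw [e4, e4]
    have e5 : ∀ l : List ι, (l.map ((fun o : Option ι => o.elim z (fun a => x (Sum.inr a))) ∘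
        some)).prod = (l.map (fun a => x (Sum.inr a))).prod := by
      intro l
      rfl
    rw [e5, e5]
    have e6 : ∀ l : List ι, (l.map (x ∘ Sum.inr)).prod = (l.map (fun a => x (Sum.inr a))).prod :=
      fun l => rfl
    rw [e6, e6]
    set P := (p'.map (fun a => x (Sum.inr a))).prod
    set Q := (q'.map (fun a => x (Sum.inr a))).prod
    have e7 : (P * (z * Q)).trace = (Q * P * z).trace := by
      rw [← mul_assoc, Matrix.trace_mul_comm, ← mul_assoc]
    rw [e7]
    simp only [smul_mul_assoc, one_mul, Matrix.trace_smul, smul_eq_mul]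
    ring
  · have e8 : (Finset.univ : Finset (Fin m ⊕ ι)).val =
        (((M1 ++ M2).flatten.map Sum.inr : List (Fin m ⊕ ι)) : Multiset (Fin m ⊕ ι)) +
          (Finset.univ : Finset (Fin m)).val.map Sum.inl +
          (((q' ++ p').map (Sum.inr : ι → Fin m ⊕ ι) : List (Fin m ⊕ ι)) :
            Multiset (Fin m ⊕ ι)) := by
      rw [← Finset.univ_disjSum_univ]
      show Multiset.disjSum _ _ = _
      rw [Multiset.disjSum, ← hmul, ← Multiset.coe_add, Multiset.map_add, Multiset.map_coe,
        Multiset.map_coe]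
      abel
    show _ ∈ PolM k (Fin m ⊕ ι) (Finset.univ : Finset (Fin m ⊕ ι)).val
    rw [e8]
    exact hmem2

theorem t_DD : S_RAZ → S_TRC → S_WP → S_IT → S_DD := by
  intro hRAZ hTRC hWP hIT k hk
  obtain ⟨m, X, f, hX, hf, hf0, hA, hc⟩ := hRAZ k hk
  let D : (Fin m → Mk k) → ℝ := fun x => f x ⟨0, hk⟩ ⟨0, hk⟩
  have hD : ∀ x, f x = D x • (1 : Mk k) := by
    intro x
    obtain ⟨c, hcx⟩ := hc x
    have : D x = c := by
      show f x ⟨0, hk⟩ ⟨0, hk⟩ = c
      rw [hcx]
      simp
    rw [this, hcx]
  refine ⟨m, D, ?_, ?_, ?_⟩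
  · apply hIT k (Fin m) hk
    show scal k (Fin m) D ∈ Pol k (Fin m)
    have : scal k (Fin m) D = f := by
      funext x
      exact (hD x).symm
    rw [this]
    exact hf
  · intro h0
    apply hf0
    funext x
    rw [hD x, h0]
    simp
  · intro ι _ _ ψ hψ
    induction hψ using Submodule.span_induction with
    | mem ψ h =>
      obtain ⟨σ, rfl⟩ := h
      exact one_monomial hTRC hWP hk X hX f hf hA D hD σ
    | zero =>
      exact ⟨0, Submodule.zero_mem _, fun x z => by simp⟩
    | add a b _ _ ha hb =>
      obtain ⟨F, hF, h1⟩ := ha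
      obtain ⟨G, hG, h2⟩ := hb
      refine ⟨F + G, Submodule.add_mem _ hF hG, fun x z => ?_⟩
      rw [Pi.add_apply, add_mul, Matrix.trace_add, h1, h2, Pi.add_apply, mul_add]
    | smul c a _ ha =>
      obtain ⟨F, hF, h1⟩ := ha
      refine ⟨c • F, Submodule.smul_mem _ c hF, fun x z => ?_⟩
      rw [Pi.smul_apply, smul_mul_assoc, Matrix.trace_smul, h1, Pi.smul_apply, smul_eq_mul,
        smul_eq_mul]
      ring

end Pool.Agent.N386.CZ
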